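import Pool.Agent.Helper75.PZ.GoalsA

/-!
# Packet PZ-CTV: variation of a concatenation
-/

set_option autoImplicit false

namespace Pool.Agent.Helper12.PZ

open Finset Pool.Agent.Helper75.PZ

lemma cat_end {M : Type} (p : ℕ → M) (t : ℕ → ℝ) (g : ℕ → ℝ → M) (n : ℕ)
    (h0 : ∀ i < n, 0 ≤ t i) (h1 : ∀ i < n, ∀ s, t i ≤ s → g i s = p (i + 1)) (u : ℝ)
    (hu : ∑ i ∈ range n, t i ≤ u) : cat p t g n u = p n := by
  induction n with
  | zero => rfl
  | succ n ih =>
    rw [sum_range_succ] at hu
    have ht := h0 n (Nat.lt_succ_self n)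
    have h2 : ¬u < ∑ i ∈ range n, t i := by
      rw [not_lt]; linarith
    simp only [cat]
    rw [if_neg h2]
    exact h1 n (Nat.lt_succ_self n) _ (by linarith)

theorem ctv : P_CTV := by
  intro M _ p t g n V h0 hg0 h1 hV
  induction n with
  | zero =>
    rw [range_zero, sum_empty]
    apply le_of_eq
    exact eVariationOn.constant_on (by
      rintro _ ⟨a, -, rfl⟩ _ ⟨b, -, rfl⟩
      rfl)
  | succ n ih =>
    have ih' := ih (fun i hi ↦ h0 i (by omega)) (fun i hi ↦ hg0 i (by omega))
      (fun i hi ↦ h1 i (by omega)) (fun i hi ↦ hV i (by omega))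
    set T := ∑ i ∈ range n, t i with hT
    have hend : cat p t g n T = p n :=
      cat_end p t g n (fun i hi ↦ h0 i (by omega)) (fun i hi ↦ h1 i (by omega)) T le_rfl
    have hs : cat p t g (n + 1) = fun u ↦ if u < T then cat p t g n u else g n (u - T) := rfl
    rw [sum_range_succ, ← Set.Iic_union_Ici (a := T),
      eVariationOn.union _ (isGreatest_Iic) (isLeast_Ici)]
    refine add_le_add ?_ ?_
    · have h2 : Set.EqOn (cat p t g (n + 1)) (cat p t g n) (Set.Iic T) := by
        intro u hu
        rw [hs]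
        rcases lt_or_eq_of_le (Set.mem_Iic.1 hu) with h | h
        · exact if_pos h
        · subst h
          simp only [lt_irrefl, if_false, sub_self]
          rw [hend]
          exact hg0 n (Nat.lt_succ_self n) 0 le_rfl
      rw [eVariationOn.eq_of_eqOn h2]
      exact (eVariationOn.mono _ (Set.subset_univ _)).trans ih'
    · have h2 : Set.EqOn (cat p t g (n + 1)) (g n ∘ fun u ↦ u - T) (Set.Ici T) := by
        intro u hu
        rw [hs]
        exact if_neg (not_lt.2 (Set.mem_Ici.1 hu))
      rw [eVariationOn.eq_of_eqOn h2]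
      refine (eVariationOn.comp_le_of_monotoneOn (g n) (t := Set.Ici T) (s := Set.univ)
        (fun u ↦ u - T) ?_ (Set.mapsTo_univ _ _)).trans (hV n (Nat.lt_succ_self n))
      intro a _ b _ hab
      simpa using hab

end Pool.Agent.Helper12.PZ
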